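import Pool.Agent.Q264.CB.Stm

/-!
# Project CB (helper264), lemma NOT
-/

set_option autoImplicit false

namespace Pool.Agent.Q164.CB

open Pool.Agent.Q264.CB

theorem sq_sum (u : Circle) : (u : ℂ).re ^ 2 + (u : ℂ).im ^ 2 = 1 := by
  have h := Circle.normSq_coe u
  rw [Complex.normSq_apply] at h
  linarith [sq (u : ℂ).re, sq (u : ℂ).im]

theorem rt_sq (a b : ℝ) (u : Circle) : rt a b u ^ 2 = (a * (u : ℂ).re) ^ 2 + (b * (u : ℂ).im) ^ 2 := by
  unfold rt
  exact Real.sq_sqrt (by positivity)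

theorem rt_nonneg (a b : ℝ) (u : Circle) : 0 ≤ rt a b u := Real.sqrt_nonneg _

theorem rt_self {a : ℝ} (ha : 0 ≤ a) (u : Circle) : rt a a u = a := by
  have h := sq_sum u
  have h2 : (a * (u : ℂ).re) ^ 2 + (a * (u : ℂ).im) ^ 2 = a ^ 2 := by
    calc (a * (u : ℂ).re) ^ 2 + (a * (u : ℂ).im) ^ 2 = a ^ 2 * ((u : ℂ).re ^ 2 + (u : ℂ).im ^ 2) := by ring
      _ = a ^ 2 := by rw [h, mul_one]
  unfold rt
  rw [h2, Real.sqrt_sq ha]

theorem rt_le {a b : ℝ} (hb : 0 ≤ b) (ha : 0 ≤ a) (hab : a ≤ b) (u : Circle) : rt a b u ≤ b := by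
  have h := sq_sum u
  apply abs_le_of_sq_le_sq' _ hb |>.2
  rw [rt_sq]
  have h1 : a ^ 2 ≤ b ^ 2 := by gcongr
  have h2 : a ^ 2 * (u : ℂ).re ^ 2 ≤ b ^ 2 * (u : ℂ).re ^ 2 := mul_le_mul_of_nonneg_right h1 (sq_nonneg _)
  have h3 : b ^ 2 * (u : ℂ).re ^ 2 + b ^ 2 * (u : ℂ).im ^ 2 = b ^ 2 := by rw [← mul_add, h, mul_one]
  nlinarith [h2, h3]

theorem continuous_re' : Continuous (fun u : Circle => (u : ℂ).re) :=
  Complex.continuous_re.comp continuous_subtype_val

theorem continuous_im' : Continuous (fun u : Circle => (u : ℂ).im) :=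
  Complex.continuous_im.comp continuous_subtype_val

theorem continuous_rt (a b : ℝ) : Continuous (rt a b) := by
  unfold rt
  have h1 := continuous_re'
  have h2 := continuous_im'
  exact Real.continuous_sqrt.comp (((continuous_const.mul h1).pow 2).add ((continuous_const.mul h2).pow 2))

theorem fam_zero (l : ℕ) (σ : ℝ) (i : Fin (2 * l + 2)) (h : i.val = 0) : fam l σ i = body 2 2 1 := by
  unfold fam
  rw [if_pos h]

theorem fam_last (l : ℕ) (σ : ℝ) (i : Fin (2 * l + 2)) (h : i.val = 2 * l + 1) :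
    fam l σ i = body (4 * l + 3) (4 * l + 3) σ := by
  unfold fam
  rw [if_neg (by omega), if_pos h]

theorem fam_odd (l : ℕ) (σ : ℝ) (i : Fin (2 * l + 2)) (h : i.val % 2 = 1) (h2 : i.val ≠ 2 * l + 1) :
    fam l σ i = body (2 * i.val + 3) (2 * i.val) 0 := by
  unfold fam
  rw [if_neg (by omega), if_neg h2, if_pos h]

theorem fam_even (l : ℕ) (σ : ℝ) (i : Fin (2 * l + 2)) (h : i.val % 2 = 0) (h2 : i.val ≠ 0) :
    fam l σ i = body (2 * i.val) (2 * i.val + 3) 0 := by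
  unfold fam
  rw [if_neg h2, if_neg (by omega), if_neg (by omega)]

theorem fam_body (l : ℕ) (σ : ℝ) (i : Fin (2 * l + 2)) :
    ∃ a b t : ℝ, 0 < a ∧ 0 < b ∧ fam l σ i = body a b t := by
  by_cases h0 : i.val = 0
  · exact ⟨2, 2, 1, by norm_num, by norm_num, fam_zero l σ i h0⟩
  have hp : (0 : ℝ) < i.val := by exact_mod_cast Nat.pos_of_ne_zero h0
  by_cases h1 : i.val = 2 * l + 1
  · exact ⟨_, _, _, by positivity, by positivity, fam_last l σ i h1⟩
  by_cases h2 : i.val % 2 = 1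
  · exact ⟨_, _, _, by positivity, by positivity, fam_odd l σ i h2 h1⟩
  · exact ⟨_, _, _, by positivity, by positivity, fam_even l σ i (by omega) h0⟩

theorem continuous_supp (hSUPP : S_SUPP) (l : ℕ) (σ : ℝ) (i : Fin (2 * l + 2)) : Continuous (supp (fam l σ i)) := by
  obtain ⟨a, b, t, ha, hb, e⟩ := fam_body l σ i
  rw [e, show supp (body a b t) = fun u : Circle => t * (u : ℂ).im + rt a b u from funext (hSUPP a b t ha hb).1]
  exact (continuous_const.mul continuous_im').add (continuous_rt a b)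

/-- The point `i` of the circle. -/
noncomputable def u0 : Circle := Circle.exp (Real.pi / 2)

theorem u0_coe : (u0 : ℂ) = Complex.I := by
  unfold u0
  rw [Circle.coe_exp]
  push_cast
  exact Complex.exp_pi_div_two_mul_I

theorem rt_u0 (a : ℝ) {b : ℝ} (hb : 0 ≤ b) : rt a b u0 = b := by
  unfold rt
  rw [u0_coe, Complex.I_re, Complex.I_im, mul_zero, mul_one, zero_pow two_ne_zero, zero_add, Real.sqrt_sq hb]

theorem rt_im_zero {a : ℝ} (b : ℝ) (ha : 0 ≤ a) {v : Circle} (hv : (v : ℂ).im = 0) : rt a b v = a := by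
  have h := sq_sum v
  rw [hv] at h
  unfold rt
  rw [hv, mul_zero, zero_pow two_ne_zero, add_zero, mul_pow]
  have : (v : ℂ).re ^ 2 = 1 := by linarith
  rw [this, mul_one, Real.sqrt_sq ha]

theorem t_NOT (hSUPP : S_SUPP) (hTOP : S_TOP) : S_NOT := by
  rintro l hl ⟨φ, hY, hc⟩
  have hl1 : (1 : ℝ) ≤ l := by exact_mod_cast hl
  have top : ∀ (i : Fin (2 * l + 2)) (p : Circle × ℝ),
      (supp (fam l (-1) i) p.1 < p.2 → supp (fam l 1 i) (φ p).1 < (φ p).2) ∧
      (p.2 < supp (fam l (-1) i) p.1 → (φ p).2 < supp (fam l 1 i) (φ p).1) := fun i =>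
    hTOP φ _ _ (continuous_supp hSUPP l (-1) i) (continuous_supp hSUPP l 1 i) hY (hc i trivial)
  have sodd : ∀ (j : ℕ), 1 ≤ j → j ≤ l → ∃ i : Fin (2 * l + 2), ∀ (σ : ℝ) (u : Circle),
      supp (fam l σ i) u = rt (4 * j + 1) (4 * j - 2) u := by
    intro j h1 h2
    refine ⟨⟨2 * j - 1, by omega⟩, fun σ u => ?_⟩
    have hj1 : (1 : ℝ) ≤ j := by exact_mod_cast h1
    have e : ((2 * j - 1 : ℕ) : ℝ) = 2 * j - 1 := by
      rw [Nat.cast_sub (by omega)]
      push_cast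
      ring
    have e1 := fam_odd l σ ⟨2 * j - 1, by omega⟩ (by simp only; omega) (by simp only; omega)
    simp only [e] at e1
    rw [e1, show (2 * (2 * (j : ℝ) - 1) + 3) = 4 * j + 1 by ring, show (2 * (2 * (j : ℝ) - 1)) = 4 * j - 2 by ring,
      (hSUPP _ _ _ (by positivity) (by linarith)).1, zero_mul, zero_add]
  have seven : ∀ (j : ℕ), 1 ≤ j → j ≤ l → ∃ i : Fin (2 * l + 2), ∀ (σ : ℝ) (u : Circle),
      supp (fam l σ i) u = rt (4 * j) (4 * j + 3) u := by
    intro j h1 h2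
    refine ⟨⟨2 * j, by omega⟩, fun σ u => ?_⟩
    have hj1 : (1 : ℝ) ≤ j := by exact_mod_cast h1
    have e1 := fam_even l σ ⟨2 * j, by omega⟩ (by simp only; omega) (by simp only; omega)
    simp only [Nat.cast_mul, Nat.cast_ofNat] at e1
    rw [e1, show (2 * (2 * (j : ℝ))) = 4 * j by ring, (hSUPP _ _ _ (by positivity) (by positivity)).1, zero_mul, zero_add]
  have s0 : ∃ i : Fin (2 * l + 2), ∀ (σ : ℝ) (u : Circle), supp (fam l σ i) u = (u : ℂ).im + 2 := by
    refine ⟨⟨0, by omega⟩, fun σ u => ?_⟩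
    rw [fam_zero l σ _ rfl, (hSUPP _ _ _ (by norm_num) (by norm_num)).1, rt_self (by norm_num), one_mul]
  have slast : ∃ i : Fin (2 * l + 2), ∀ (σ : ℝ) (u : Circle), supp (fam l σ i) u = σ * (u : ℂ).im + (4 * l + 3) := by
    refine ⟨⟨2 * l + 1, by omega⟩, fun σ u => ?_⟩
    rw [fam_last l σ _ rfl, (hSUPP _ _ _ (by positivity) (by positivity)).1, rt_self (by positivity)]
  have hu0 : (u0 : ℂ).im = 1 := by rw [u0_coe, Complex.I_im]
  -- the path does not meet the real axis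
  have key : ∀ y : ℝ, 5 / 2 ≤ y → y ≤ 4 * l + 5 / 2 → ((φ (u0, y)).1 : ℂ).im ≠ 0 := by
    intro y h1 h2 hv
    obtain ⟨j, hj⟩ : ∃ j : ℕ, j = ⌊(y - 3) / 4⌋₊ + 1 := ⟨_, rfl⟩
    have hjl : j ≤ l := by
      have : ⌊(y - 3) / 4⌋₊ < l := (Nat.floor_lt' (by omega)).2 (by linarith)
      omega
    have hj1 : 1 ≤ j := by omega
    have hj1' : (1 : ℝ) ≤ j := by exact_mod_cast hj1
    have a1 : y < 4 * j + 3 := by
      have := Nat.lt_floor_add_one ((y - 3) / 4)
      rw [hj]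
      push_cast
      linarith
    have a2 : 4 * (j : ℝ) - 2 < y := by
      rw [hj]
      push_cast
      rcases le_or_gt 3 y with h | h
      · have := Nat.floor_le (show 0 ≤ (y - 3) / 4 by linarith)
        linarith
      · have : ⌊(y - 3) / 4⌋₊ = 0 := Nat.floor_of_nonpos (by linarith)
        rw [this]
        push_cast
        linarith
    obtain ⟨i1, e1⟩ := sodd j hj1 hjl
    obtain ⟨i2, e2⟩ := seven j hj1 hjl
    have b1 := (top i1 (u0, y)).1
    have b2 := (top i2 (u0, y)).2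
    rw [e1, e1] at b1
    rw [e2, e2] at b2
    simp only at b1 b2
    rw [rt_u0 _ (by linarith), rt_im_zero _ (by linarith) hv] at b1
    rw [rt_u0 _ (by linarith), rt_im_zero _ (by linarith) hv] at b2
    have := b1 a2
    have := b2 a1
    linarith
  -- the start of the path
  have start : 0 < ((φ (u0, 5 / 2)).1 : ℂ).im := by
    by_contra hcon
    rw [not_lt] at hcon
    obtain ⟨i1, e1⟩ := sodd 1 le_rfl hl
    obtain ⟨i2, e2⟩ := s0
    have b1 := (top i1 (u0, 5 / 2)).1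
    have b2 := (top i2 (u0, 5 / 2)).2
    rw [e1, e1] at b1
    rw [e2, e2] at b2
    simp only at b1 b2
    rw [rt_u0 _ (by norm_num)] at b1
    rw [hu0] at b2
    have c1 := b1 (by norm_num)
    have c2 := b2 (by norm_num)
    have c3 : (2 : ℝ) ≤ rt (4 * ((1 : ℕ) : ℝ) + 1) (4 * ((1 : ℕ) : ℝ) - 2) (φ (u0, 5 / 2)).1 := by
      apply Real.le_sqrt_of_sq_le
      have := sq_sum (φ (u0, 5 / 2)).1
      push_cast
      nlinarith [sq_nonneg ((φ (u0, 5 / 2)).1 : ℂ).re]
    linarith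
  -- the end of the path
  have fin : ((φ (u0, 4 * l + 5 / 2)).1 : ℂ).im < 0 := by
    obtain ⟨i1, e1⟩ := slast
    obtain ⟨i2, e2⟩ := seven l hl le_rfl
    have b1 := (top i1 (u0, 4 * l + 5 / 2)).1
    have b2 := (top i2 (u0, 4 * l + 5 / 2)).2
    rw [e1, e1] at b1
    rw [e2, e2] at b2
    simp only at b1 b2
    rw [hu0] at b1
    rw [rt_u0 _ (by positivity)] at b2
    have c1 := b1 (by linarith)
    have c2 := b2 (by linarith)
    have c3 := rt_le (a := 4 * (l : ℝ)) (b := 4 * l + 3) (by positivity) (by positivity) (by linarith)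
      (φ (u0, 4 * l + 5 / 2)).1
    linarith
  have hcont : Continuous (fun y : ℝ => ((φ (u0, y)).1 : ℂ).im) :=
    continuous_im'.comp (continuous_fst.comp (φ.continuous.comp (by fun_prop)))
  obtain ⟨y, ⟨hy1, hy2⟩, hy3⟩ := intermediate_value_Icc' (show (5 / 2 : ℝ) ≤ 4 * l + 5 / 2 by linarith)
    hcont.continuousOn ⟨fin.le, start.le⟩
  exact key y hy1 hy2 hy3

end Pool.Agent.Q164.CB
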